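import Pool.Agent.Lib.MP_b5021c_nt.IfaceKV
import Pool.Agent.Lib.MP_b5021c_nt.E.H19.Tsf
import Pool.Agent.Lib.MP_b5021c_nt.B.H07.Cro
import Pool.Agent.Lib.MP_b5021c_nt.E.H56.T2o

/-!
# Board b5, K EVEN without levels: row KV_TSG

(T-s) in general.  At the load `eta` the closing has full rank, content of measure one and a small
non-pure factor; at `eta'` the closing drops.  Then the constant coefficient at `eta'` is
`(1 - eta'/eta) * t` times the constant coefficient at `eta`, with `t` nonnegative on the circle.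
-/

set_option autoImplicit false

namespace Pool.Agent.B5.KV.H45

open scoped LaurentPolynomial
open Polynomial
open Pool.Agent.B5

/-- (KV_TSG) -/
theorem tsg_st (hqst : QstS) (h2 : QraS) (h3 : MinS) (h4 : Coeff0S) (h5 : B5aS)
    (h6 : RkS) (hk : KmuS) (hqc : Qc3S) (hdv : Dv3S) : TsgS := by
  classical
  intro P L _ _ _ _ _ phi D S i0 eta eta' h c n G m v fd hMc hsnp hfull hne hdrop hV hnod
  -- ranks
  have hk0 : co phi i0 ≠ 0 := by
    intro h0
    rw [h0] at h
    simp at h
  have e1 := (h6 L L).1 (co phi i0) hk0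
  have e2 := (h6 (Ker (co phi i0)) (Ker (co phi i0))).2.2.1 (supp (cl (co phi i0) S h eta' D))
  have hfull' : rk (supp (cl (co phi i0) S h eta D)) = Module.finrank ℤ (Ker (co phi i0)) := by
    omega
  have hdrop' : rk (supp (cl (co phi i0) S h eta' D)) < Module.finrank ℤ (Ker (co phi i0)) := by
    omega
  obtain ⟨mu, hmu, hmuV⟩ := hk _ _ hdrop'
  have hGne : ∀ i, (G i).coeff 0 ≠ 0 := fun i => (fd.st i).1
  -- the quotient
  obtain ⟨l, b, j, e', hj, q', hqc'⟩ := hqc ℤ P L phi D S i0 eta h c n G fd hsnp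
  have sp := hqc'.sp
  obtain ⟨q'', hq0, hX, -, hsym, -⟩ := hqst ℤ P L phi D S i0 eta h c n G fd l b j e' sp hj
  have hqq : q'' = q' := by
    have hUne : (∏ i ∈ Finset.univ.erase l, res (Ker (co (phK phi (co phi i0)) j)) (G i)) ≠ 0 := by
      refine Finset.prod_ne_zero_iff.2 fun i _ h0 => hGne i ?_
      have h9 := congrArg (fun F => F.coeff 0) h0
      exact h9
    have h7 := hqc'.xe
    rw [hX] at h7
    exact mul_right_cancel₀ hUne h7
  subst hqq
  obtain ⟨hqs, -, hstar, -⟩ := H19.star h2 h3 h4 h5 h6 fd sp hj q'' hq0 hX hsym hfull' eta' hne mu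
    hmu hmuV
  obtain ⟨F, hF, hFn⟩ := hdv ℤ P L phi D S i0 eta h c n G l b j e' hj q'' hqc' hMc m v hV hnod
  have hgne : c * (G l).coeff 0 ≠ 0 := mul_ne_zero fd.c0 (hGne l)
  -- the mass is a constant
  have hF0 : q''.coeff 0 = (c * (G l).coeff 0) * F.coeff 0 := by
    conv_lhs => rw [hF]
    rw [H71.cst_mul_coeff]
  have hFc : F = cst (F.coeff 0) := by
    apply AddMonoidAlgebra.ext
    apply Finsupp.ext
    intro x
    rw [cst, AddMonoidAlgebra.coeff_single, Finsupp.single_apply]
    split_ifs with h0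
    · rw [← h0]
    · have h7 : q''.coeff x = 0 := by
        rw [hqs, cst, AddMonoidAlgebra.coeff_single, Finsupp.single_apply, if_neg h0]
      rw [hF, H71.cst_mul_coeff] at h7
      exact (mul_eq_zero.1 h7).resolve_left hgne
  obtain ⟨t, ht⟩ : ∃ t, t = F.coeff 0 := ⟨_, rfl⟩
  rw [← ht] at hF0 hFc
  refine ⟨t, ?_, ?_, ?_⟩
  · intro h0
    rw [h0, mul_zero] at hF0
    rw [hF0] at hqs
    apply hq0
    rw [hqs]
    simp [cst]
  · intro z
    have h7 := hFn z 1
    rw [hFc, cst, H71.ev_single] at h7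
    simpa using h7
  · rw [hstar, hF0, fd.v00, ← Finset.mul_prod_erase Finset.univ (fun i => (G i).coeff 0)
      (Finset.mem_univ l)]
    ring

end Pool.Agent.B5.KV.H45
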